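import Pool.Agent.helper55.NM.Spec

set_option autoImplicit false

namespace Pool.Agent.helper15.NM

open Pool.Agent.NM Finset Nat

lemma PTB_lt {q : ℕ} (y : Fin q → ℝ) (hy : ∀ i, 0 < y i) (τ : Equiv.Perm (Fin q)) (j j' : ℕ) (h : j < j') (hq : j' ≤ q) :
    Yp y τ j < Yp y τ j' := by
  unfold Yp
  refine Finset.sum_lt_sum_of_subset (i := ⟨j, by omega⟩) ?_ ?_ ?_ (hy _) ?_
  · intro i hi
    rw [mem_filter] at hi ⊢
    exact ⟨hi.1, lt_trans hi.2 h⟩
  · rw [mem_filter]
    exact ⟨mem_univ _, h⟩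
  · rw [mem_filter]
    intro h1
    exact absurd h1.2 (lt_irrefl j)
  · intro i _ _
    exact (hy _).le

lemma PTB_le {q : ℕ} (y : Fin q → ℝ) (hy : ∀ i, 0 < y i) (τ : Equiv.Perm (Fin q)) (j j' : ℕ) (h : j ≤ j') (hq : j' ≤ q) :
    Yp y τ j ≤ Yp y τ j' := by
  rcases Nat.lt_or_ge j j' with h1 | h1
  · exact (PTB_lt y hy τ j j' h1 hq).le
  · rw [le_antisymm h h1]

lemma PTB_nn {q : ℕ} (y : Fin q → ℝ) (hy : ∀ i, 0 < y i) (τ : Equiv.Perm (Fin q)) (j : ℕ) : 0 ≤ Yp y τ j := by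
  unfold Yp
  exact Finset.sum_nonneg (fun i _ => (hy _).le)

lemma PTB_inj {q : ℕ} (y : Fin q → ℝ) (hy : ∀ i, 0 < y i) (τ : Equiv.Perm (Fin q)) (j j' : ℕ) (h : j ≤ q) (h' : j' ≤ q)
    (he : Yp y τ j = Yp y τ j') : j = j' := by
  rcases lt_trichotomy j j' with h1 | h1 | h1
  · exact absurd he (PTB_lt y hy τ j j' h1 h').ne
  · exact h1
  · exact absurd he (PTB_lt y hy τ j' j h1 h).ne'

/-- `I` is counted -/
def PTB_hit {p q : ℕ} (X : Fin p → ℝ) (y : Fin q → ℝ) (k : ℕ) (τ : Equiv.Perm (Fin q)) (I : Finset (Fin p)) : Prop :=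
  ∃ j : ℕ, j ≤ q ∧ I.card + j ≤ k ∧ Yp y τ j = ∑ i ∈ I, X i

open Classical in
/-- the index -/
noncomputable def PTB_j {p q : ℕ} (X : Fin p → ℝ) (y : Fin q → ℝ) (k : ℕ) (τ : Equiv.Perm (Fin q)) (I : Finset (Fin p)) : ℕ :=
  if h : PTB_hit X y k τ I then h.choose else 0

lemma PTB_js {p q : ℕ} (X : Fin p → ℝ) (y : Fin q → ℝ) (k : ℕ) (τ : Equiv.Perm (Fin q)) (I : Finset (Fin p))
    (h : PTB_hit X y k τ I) : PTB_j X y k τ I ≤ q ∧ I.card + PTB_j X y k τ I ≤ k ∧ Yp y τ (PTB_j X y k τ I) = ∑ i ∈ I, X i := by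
  unfold PTB_j
  rw [dif_pos h]
  exact h.choose_spec

open Classical in
lemma PTB_inner {p q : ℕ} (X : Fin p → ℝ) (y : Fin q → ℝ) (hy : ∀ i, 0 < y i) (k : ℕ) (τ : Equiv.Perm (Fin q)) (I : Finset (Fin p)) :
    (∑ j ∈ range (q + 1), if I.card + j ≤ k ∧ Yp y τ j = ∑ i ∈ I, X i then q.choose j else 0) =
      if PTB_hit X y k τ I then q.choose (PTB_j X y k τ I) else 0 := by
  by_cases h : PTB_hit X y k τ I
  · rw [if_pos h]
    obtain ⟨h1, h2, h3⟩ := PTB_js X y k τ I h
    rw [Finset.sum_eq_single (PTB_j X y k τ I)]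
    · rw [if_pos ⟨h2, h3⟩]
    · intro j hj hne
      rw [if_neg]
      rintro ⟨_, h5⟩
      exact hne (PTB_inj y hy τ _ _ (by rw [mem_range] at hj; omega) h1 (h5.trans h3.symm))
    · intro hn
      exact absurd (mem_range.mpr (by omega)) hn
  · rw [if_neg h]
    refine Finset.sum_eq_zero ?_
    intro j hj
    rw [if_neg]
    rintro ⟨h4, h5⟩
    exact h ⟨j, by rw [mem_range] at hj; omega, h4, h5⟩

theorem PTB (hGG2 : GG2_stmt) (hGG3 : GG3_stmt) (hBIN : BIN_stmt) : PTB_stmt := by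
  classical
  intro p q k L X y ε τ hX hy hp hε hpL hkq hpq hρ1 hρ2 hkR hgood
  set n : ℝ := (p : ℝ) + q with hn
  have hn0 : 0 < n := by
    have : (3 : ℝ) ≤ p := by exact_mod_cast hp
    have : (0 : ℝ) ≤ q := Nat.cast_nonneg q
    linarith
  set ρ : ℝ := (k : ℝ) / n with hρ
  set R : ℝ := 1 - 2 * ε with hR
  have hR0 : 0 ≤ R := by linarith
  have hR1 : R ≤ 1 := by linarith
  have hρ0 : 0 < ρ := by linarith
  have hρ3 : 0 < 1 - ρ := by linarith
  set Hall : Finset (Finset (Fin p)) := univ.filter (fun I => I.Nonempty ∧ PTB_hit X y k τ I) with hHall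
  set d : Finset (Fin p) → ℕ := fun I => k - I.card - PTB_j X y k τ I with hd
  have hWt : Wt X y k τ = ∑ I ∈ Hall, q.choose (PTB_j X y k τ I) := by
    unfold Wt
    rw [Finset.sum_congr rfl (fun I _ => PTB_inner X y hy k τ I), ← Finset.sum_filter, Finset.filter_filter]
  have hcp : ∀ I : Finset (Fin p), I.card ≤ p := by
    intro I
    have := Finset.card_le_univ I
    rwa [Fintype.card_fin] at this
  have hterm : ∀ I ∈ Hall, (1 - (p : ℝ) ^ 2 / n) * (q.choose (PTB_j X y k τ I) : ℝ) ≤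
      ρ ^ I.card * (1 - ρ) ^ (p - I.card) * R ^ d I * ((p + q).choose k : ℝ) := by
    intro I hI
    rw [hHall, mem_filter] at hI
    obtain ⟨h1, h2, h3⟩ := PTB_js X y k τ I hI.2.2
    have h4 := hBIN p q k I.card (d I) R (hcp I) (by simp only [hd]; omega) hkq hpq hR0 hkR
    have h5 : k - I.card - d I = PTB_j X y k τ I := by simp only [hd]; omega
    rw [h5] at h4
    exact h4
  have hsum1 : (1 - (p : ℝ) ^ 2 / n) * (Wt X y k τ : ℝ) ≤
      (∑ I ∈ Hall, ρ ^ I.card * (1 - ρ) ^ (p - I.card) * R ^ d I) * ((p + q).choose k : ℝ) := by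
    rw [hWt]
    push_cast
    rw [Finset.mul_sum, Finset.sum_mul]
    exact Finset.sum_le_sum hterm
  refine hsum1.trans (mul_le_mul_of_nonneg_right ?_ (Nat.cast_nonneg _))
  rw [← Finset.sum_filter_add_sum_filter_not Hall (fun I => d I ≤ L)]
  have hw : ∀ I : Finset (Fin p), 0 ≤ ρ ^ I.card * (1 - ρ) ^ (p - I.card) := by
    intro I
    positivity
  refine add_le_add ?_ ?_
  · set H := Hall.filter (fun I => d I ≤ L) with hH
    set S : Finset (Fin p) := univ.filter (fun e => ((p : ℝ) + 1) * X e < Yp y τ k) with hS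
    have hg : ((p : ℝ) + 1) * (Yp y τ k - Yp y τ (k - (p + L))) < Yp y τ k := by
      have := not_le.mp hgood
      push_cast at this
      exact this
    have hHm : ∀ I ∈ H, I.Nonempty ∧ PTB_j X y k τ I ≤ q ∧ I.card + PTB_j X y k τ I ≤ k ∧
        Yp y τ (PTB_j X y k τ I) = ∑ i ∈ I, X i ∧ d I ≤ L := by
      intro I hI
      rw [hH, mem_filter, hHall, mem_filter] at hI
      obtain ⟨h1, h2, h3⟩ := PTB_js X y k τ I hI.1.2.2
      exact ⟨hI.1.2.1, h1, h2, h3, hI.2⟩
    have hlo : ∀ I ∈ H, Yp y τ (k - (p + L)) ≤ ∑ i ∈ I, X i := by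
      intro I hI
      obtain ⟨_, h1, h2, h3, h4⟩ := hHm I hI
      rw [← h3]
      refine PTB_le y hy τ _ _ ?_ h1
      have := hcp I
      simp only [hd] at h4
      omega
    have hup : ∀ I ∈ H, ∑ i ∈ I, X i ≤ Yp y τ k := by
      intro I hI
      obtain ⟨_, h1, h2, h3, h4⟩ := hHm I hI
      rw [← h3]
      exact PTB_le y hy τ _ _ (by omega) hkq
    have hYk := PTB_nn y hy τ k
    have hp1 : (0 : ℝ) < (p : ℝ) + 1 := by positivity
    have hHyp : Hyp p S H d := by
      refine ⟨?_, ?_, ?_⟩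
      · intro I hI hIS
        have h1 := hlo I hI
        have h2 : ((p : ℝ) + 1) * ∑ i ∈ I, X i < p * Yp y τ k := by
          rw [Finset.mul_sum]
          have h3 : ∑ i ∈ I, ((p : ℝ) + 1) * X i < ∑ i ∈ I, Yp y τ k := by
            refine Finset.sum_lt_sum_of_nonempty (hHm I hI).1 ?_
            intro i hi
            have h5 := hIS hi
            rw [hS, mem_filter] at h5
            exact h5.2
          rw [Finset.sum_const, nsmul_eq_mul] at h3
          refine h3.trans_le (mul_le_mul_of_nonneg_right ?_ hYk)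
          exact_mod_cast hcp I
        have h3 := mul_le_mul_of_nonneg_left h1 hp1.le
        linarith
      · intro I₁ h₁ I₂ h₂ hcap hsub
        by_contra hne
        obtain ⟨e, he2, he1⟩ := Finset.exists_of_ssubset (Finset.ssubset_iff_subset_ne.mpr ⟨hsub, hne⟩)
        have heS : e ∉ S := by
          intro heS
          have : e ∈ I₁ ∩ S := by
            rw [hcap]
            exact mem_inter.mpr ⟨he2, heS⟩
          exact he1 (mem_inter.mp this).1
        have h1 : Yp y τ k ≤ ((p : ℝ) + 1) * X e := by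
          rw [hS, mem_filter] at heS
          by_contra h5
          exact heS ⟨mem_univ _, not_le.mp h5⟩
        have h2 : ∑ i ∈ I₁, X i + X e ≤ ∑ i ∈ I₂, X i := by
          have h3 : ∑ i ∈ insert e I₁, X i ≤ ∑ i ∈ I₂, X i := by
            refine Finset.sum_le_sum_of_subset_of_nonneg ?_ (fun i _ _ => (hX i).le)
            exact Finset.insert_subset he2 hsub
          rw [Finset.sum_insert he1] at h3
          linarith
        have h3 := hlo I₁ h₁
        have h4 := hup I₂ h₂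
        have h5 := mul_le_mul_of_nonneg_left h3 hp1.le
        have h6 := mul_le_mul_of_nonneg_left h2 hp1.le
        have h7 := mul_le_mul_of_nonneg_left h4 hp1.le
        nlinarith
      · intro I₁ h₁ I₂ h₂ hss
        obtain ⟨_, a1, a2, a3, a4⟩ := hHm I₁ h₁
        obtain ⟨_, b1, b2, b3, b4⟩ := hHm I₂ h₂
        have h1 : ∑ i ∈ I₁, X i < ∑ i ∈ I₂, X i := by
          obtain ⟨e, he2, he1⟩ := Finset.exists_of_ssubset hss
          exact Finset.sum_lt_sum_of_subset hss.1 he2 he1 (hX e) (fun i _ _ => (hX i).le)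
        have h2 : PTB_j X y k τ I₁ < PTB_j X y k τ I₂ := by
          by_contra h3
          have h4 := PTB_le y hy τ _ _ (not_lt.mp h3) a1
          rw [a3, b3] at h4
          linarith
        have h3 := Finset.card_lt_card hss
        simp only [hd]
        omega
    rcases Nat.lt_or_ge (univ \ S).card 3 with h3 | h3
    · exact hGG2 p S H d ε ρ R hHyp hε hρ1 hρ2 hR0 le_rfl hp (by omega)
    · exact hGG3 p S H d ε ρ R hHyp hε hρ1 hρ2 hR0 le_rfl h3
  · have h1 : ∀ I ∈ Hall.filter (fun I => ¬ d I ≤ L), ρ ^ I.card * (1 - ρ) ^ (p - I.card) * R ^ d I ≤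
        ρ ^ I.card * (1 - ρ) ^ (p - I.card) * R ^ L := by
      intro I hI
      rw [mem_filter] at hI
      refine mul_le_mul_of_nonneg_left ?_ (hw I)
      exact pow_le_pow_of_le_one hR0 hR1 (by omega)
    refine (Finset.sum_le_sum h1).trans ?_
    rw [← Finset.sum_mul]
    have h2 : ∑ I ∈ Hall.filter (fun I => ¬ d I ≤ L), ρ ^ I.card * (1 - ρ) ^ (p - I.card) ≤
        ∑ I : Finset (Fin p), ρ ^ I.card * (1 - ρ) ^ (p - I.card) :=
      Finset.sum_le_sum_of_subset_of_nonneg (Finset.subset_univ _) (fun I _ _ => hw I)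
    have h3 : ∑ I : Finset (Fin p), ρ ^ I.card * (1 - ρ) ^ (p - I.card) = 1 := by
      have h4 := Fintype.sum_pow_mul_eq_add_pow (Fin p) ρ (1 - ρ)
      rw [Fintype.card_fin] at h4
      rw [h4]
      simp
    rw [h3] at h2
    have h5 : 0 ≤ R ^ L := pow_nonneg hR0 L
    calc _ ≤ 1 * R ^ L := mul_le_mul_of_nonneg_right h2 h5
      _ = R ^ L := one_mul _

end Pool.Agent.helper15.NM
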